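import Pool.Agent.H88.WS.Fcb
import Pool.Agent.H88.AQ.Iface

/-!
# H32 AW CNT: `Cnt3Stmt` from `Com3Stmt` (W2#, AQ, MP_b39724; port of H88/WS/Cnt)

`m` is the one of `Com3Stmt`; `b = tb β`, `β = bk τ b`; `Com3Stmt` with `H = Hp C (A + 1) s`. `1 ≤ K Wt (3/4)` and `∏ Dt^(-3/4) ≤ Wt (3/4)`.
First bound: `Λ = 1 + log H`. Second bound: `Λ φ = 1 + 2 log (1/μ) + log (max 1 (s^2/|D1|)) + log (C (2 + ρ2)^2)`, `Nd s s (Λ φ) β φ`.
-/

open scoped NumberField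
open H88.A4 Pool.Agent.H67.WA H88.WS H88.AQ

noncomputable section

namespace H32.AW

private theorem rlog {n y : ℝ} (h1 : 1 ≤ n) (hy : 1 ≤ y) : 1 + Real.log y ≤ n * y ^ (1 / n) := by
  have hn : 0 < n := by linarith
  have hy0 : 0 < y := by linarith
  have h2 := Real.log_le_sub_one_of_pos (Real.rpow_pos_of_pos hy0 (1 / n))
  rw [Real.log_rpow hy0] at h2
  have h3 : n * (1 / n * Real.log y) ≤ n * (y ^ (1 / n) - 1) := mul_le_mul_of_nonneg_left h2 hn.le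
  rw [← mul_assoc, mul_one_div_cancel hn.ne', one_mul] at h3
  linarith

private theorem mx_le {C k x : ℝ} (hC : 1 ≤ C) (hk : 1 ≤ k) (hx : 0 < x) (hx2 : x ≤ C) :
    1 + Real.log (max 1 (k / x)) ≤ 20 * (k * C) ^ (1 / 20 : ℝ) * x ^ (-(1 / 20) : ℝ) := by
  have h1 := rlog (n := 20) (by norm_num) (le_max_left 1 (k / x))
  refine h1.trans ?_
  rw [mul_assoc]
  refine mul_le_mul_of_nonneg_left ?_ (by norm_num)
  have h2 : max 1 (k / x) ≤ k * C / x := by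
    refine max_le ?_ ?_
    · rw [one_le_div hx]
      nlinarith
    · refine div_le_div_of_nonneg_right ?_ hx.le
      nlinarith
  have h3 := Real.rpow_le_rpow (le_trans zero_le_one (le_max_left 1 (k / x))) h2 (by norm_num : (0 : ℝ) ≤ 1 / 20)
  refine h3.trans (le_of_eq ?_)
  rw [Real.div_rpow (by nlinarith) hx.le, Real.rpow_neg hx.le, div_eq_mul_inv]

private theorem lam_le {C4 C6 : ℝ} (hC4 : 1 ≤ C4) (hC6 : 1 ≤ C6) {x μ ρ : ℝ} (hx : 0 < x)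
    (hx2 : x ≤ C4) (hμ : 0 < μ) (hμ1 : μ ≤ 1) (hρ : 0 ≤ ρ) :
    1 + 2 * Real.log (1 / μ) + Real.log (max 1 (1 / x)) + Real.log (C6 * (2 + ρ) ^ 2) ≤
    (2 * (20 * (1 * C4) ^ (1 / 20 : ℝ)) * (40 * C6 ^ (1 / 40 : ℝ))) *
      ((1 + Real.log (1 / μ)) * (2 + ρ) ^ (1 / 20 : ℝ) * x ^ (-(1 / 20) : ℝ)) := by
  have ha : 0 ≤ Real.log (1 / μ) := Real.log_nonneg ((one_le_div hμ).2 hμ1)
  have hc : 0 ≤ Real.log (max 1 (1 / x)) := Real.log_nonneg (le_max_left _ _)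
  have h2ρ : 1 ≤ (2 + ρ) ^ 2 := one_le_pow₀ (by linarith)
  have hd1 : 1 ≤ C6 * (2 + ρ) ^ 2 := by nlinarith
  have hd : 0 ≤ Real.log (C6 * (2 + ρ) ^ 2) := Real.log_nonneg hd1
  have h2 := mx_le hC4 (le_refl (1 : ℝ)) hx hx2
  have h3 : 1 + Real.log (C6 * (2 + ρ) ^ 2) ≤ 40 * C6 ^ (1 / 40 : ℝ) * (2 + ρ) ^ (1 / 20 : ℝ) := by
    refine (rlog (n := 40) (by norm_num) hd1).trans (le_of_eq ?_)
    rw [Real.mul_rpow (by linarith) (by positivity), ← Real.rpow_natCast (2 + ρ) 2, ← Real.rpow_mul (by linarith),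
      mul_assoc]
    norm_num
  set a := Real.log (1 / μ) with haa
  set c := Real.log (max 1 (1 / x)) with hcc
  set d := Real.log (C6 * (2 + ρ) ^ 2) with hdd
  have h4 : 1 + 2 * a + c + d ≤ (2 * (1 + a)) * (1 + c) * (1 + d) := by
    have e2 : 1 + 2 * a + c ≤ (2 * (1 + a)) * (1 + c) := by nlinarith [mul_nonneg ha hc]
    have e4 : 1 ≤ (2 * (1 + a)) * (1 + c) := by linarith [e2]
    nlinarith [mul_nonneg (sub_nonneg.2 e4) hd]
  refine h4.trans ?_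
  have hxp : 0 < x ^ (-(1 / 20) : ℝ) := Real.rpow_pos_of_pos hx _
  calc (2 * (1 + a)) * (1 + c) * (1 + d)
      ≤ (2 * (1 + a)) *
        (20 * (1 * C4) ^ (1 / 20 : ℝ) * x ^ (-(1 / 20) : ℝ)) *
        (40 * C6 ^ (1 / 40 : ℝ) * (2 + ρ) ^ (1 / 20 : ℝ)) := by
        gcongr
    _ = _ := by ring

private theorem dt_bd {K : Type} [Field K] [NumberField K] {b : T3 K} {C s ρ1 ρ2 : ℝ} (hC : 1 ≤ C) (h : Bx C s ρ1 ρ2 b)
    (hR : Rho C ρ1 ρ2) (hs : 0 < s) (φ : K →+* ℂ) : sz φ (dt b) / s ^ 2 ≤ 2 * C ^ 4 := by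
  obtain ⟨h1, h2, h3⟩ := h
  obtain ⟨r1, r2, r3, r4⟩ := hR
  have hC0 : 0 < C := by linarith
  have hρ2 : 0 < ρ2 := by linarith
  have k1 : sz φ b.1 ≤ C * s * ρ1 ^ 2 := h1 φ
  have k2 : sz φ b.2.1 ≤ C * s * (ρ1 * ρ2) := h2 φ
  have k3 : sz φ b.2.2 ≤ C * s * ρ2 ^ 2 := h3 φ
  have k4 : sz φ (dt b) ≤ (C * s * ρ1 ^ 2) * (C * s * ρ2 ^ 2) + (C * s * (ρ1 * ρ2)) ^ 2 := by
    unfold dt
    refine (sz_sub _ _ _).trans ?_
    rw [sz_mul, sz_pow]
    exact add_le_add (mul_le_mul k1 k3 (sz_nonneg _ _) (by positivity)) (pow_le_pow_left₀ (sz_nonneg _ _) k2 2)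
  rw [div_le_iff₀ (by positivity)]
  refine k4.trans ?_
  have k5 : ρ1 * (ρ1 * ρ2 ^ 2) ≤ C * C := mul_le_mul r3 r4 (by positivity) hC0.le
  have k6 : (C * s * ρ1 ^ 2) * (C * s * ρ2 ^ 2) + (C * s * (ρ1 * ρ2)) ^ 2 =
      2 * (C ^ 2 * s ^ 2) * (ρ1 * (ρ1 * ρ2 ^ 2)) := by ring
  rw [k6]
  have k7 : 2 * (C ^ 2 * s ^ 2) * (ρ1 * (ρ1 * ρ2 ^ 2)) ≤ 2 * (C ^ 2 * s ^ 2) * (C * C) :=
    mul_le_mul_of_nonneg_left k5 (by positivity)
  refine k7.trans (le_of_eq ?_)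
  ring

private theorem wt_mul {K : Type} [Field K] [NumberField K] {s : ℝ} (hs : 0 < s) {b : T3 K} (hb : dt b ≠ 0) :
    Wt (3 / 4) s b * Wt (1 / 20) s b = Wt (4 / 5) s b := by
  unfold Wt
  rw [← Finset.prod_mul_distrib]
  refine Finset.prod_congr rfl fun φ _ => ?_
  have h1 : 0 < sz φ (dt b) / s ^ 2 := div_pos (sz_pos φ hb) (by positivity)
  rw [← Real.rpow_add h1]
  norm_num

private theorem wt_nonneg {K : Type} [Field K] [NumberField K] (θ s : ℝ) (b : T3 K) : 0 ≤ Wt θ s b :=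
  Finset.prod_nonneg fun φ _ => Real.rpow_nonneg (div_nonneg (sz_nonneg _ _) (sq_nonneg s)) _

private theorem prod_c {K : Type} [Field K] [NumberField K] (t : ℝ) : ∏ _φ : K →+* ℂ, t = t ^ Module.finrank ℚ K := by
  rw [Finset.prod_const, Finset.card_univ, NumberField.Embeddings.card]

private theorem prod_split {K : Type} [Field K] [NumberField K] (k a r : ℝ) (f : (K →+* ℂ) → ℝ) :
    ∏ φ : K →+* ℂ, (k * (a * r * f φ)) = k ^ Module.finrank ℚ K * (a ^ Module.finrank ℚ K *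
      r ^ Module.finrank ℚ K * ∏ φ, f φ) := by
  rw [Finset.prod_mul_distrib, Finset.prod_mul_distrib, Finset.prod_mul_distrib,
    prod_c (K := K), prod_c (K := K), prod_c (K := K)]

/-- steps (1), (2) of the proof -/
private theorem base_le {K : Type} [Field K] [NumberField K] {s : ℝ} (hs : 0 < s) {β : Blk (𝓞 K)}
    (h1 : β.D1 ≠ 0) {C4 : ℝ} (hC4 : 1 ≤ C4) (hx : ∀ φ : K →+* ℂ, sz φ β.D1 / s ^ 2 ≤ C4)
    {N : ℝ} (hN : 1 ≤ N) :
    1 + N * ∏ φ : K →+* ℂ, Dt s s β φ ^ (-(3 / 4) : ℝ) ≤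
      ((C4 ^ (3 / 4 : ℝ)) ^ Module.finrank ℚ K + 1) * (N * Wt (3 / 4) s (tb β)) := by
  have hx0 : ∀ φ : K →+* ℂ, 0 < sz φ β.D1 / s ^ 2 := fun φ => div_pos (sz_pos φ h1) (by positivity)
  have hP : ∏ φ : K →+* ℂ, Dt s s β φ ^ (-(3 / 4) : ℝ) ≤ Wt (3 / 4) s (tb β) := by
    unfold Wt
    refine Finset.prod_le_prod (fun φ _ => Real.rpow_nonneg ?_ _) fun φ _ => ?_
    · exact (hx0 φ).le.trans (le_max_left _ _)
    · have k1 : sz φ β.D1 / s ^ 2 ≤ Dt s s β φ := le_max_left _ _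
      exact Real.rpow_le_rpow_of_nonpos (hx0 φ) k1 (by norm_num)
  have hQ : 1 ≤ (C4 ^ (3 / 4 : ℝ)) ^ Module.finrank ℚ K * Wt (3 / 4) s (tb β) := by
    rw [← prod_c (K := K)]
    unfold Wt
    rw [← Finset.prod_mul_distrib]
    have hC40 : 0 < C4 := by linarith
    have hone : ∀ z : ℝ, 0 < z → z ≤ C4 → 1 ≤ C4 ^ (3 / 4 : ℝ) * z ^ (-(3 / 4) : ℝ) := by
      intro z hz hz2
      rw [Real.rpow_neg hz.le, ← div_eq_mul_inv, one_le_div (Real.rpow_pos_of_pos hz _)]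
      exact Real.rpow_le_rpow hz.le hz2 (by norm_num)
    calc (1 : ℝ) = ∏ _φ : K →+* ℂ, (1 : ℝ) := by simp
      _ ≤ _ := Finset.prod_le_prod (fun _ _ => zero_le_one) fun φ _ => hone _ (hx0 φ) (hx φ)
  have hW : 0 ≤ Wt (3 / 4) s (tb β) := wt_nonneg _ _ _
  have hN0 : 0 ≤ N := by linarith
  have e1 : N * ∏ φ : K →+* ℂ, Dt s s β φ ^ (-(3 / 4) : ℝ) ≤ N * Wt (3 / 4) s (tb β) :=
    mul_le_mul_of_nonneg_left hP hN0
  set W := Wt (3 / 4) s (tb β) with hWd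
  set K1 := (C4 ^ (3 / 4 : ℝ)) ^ Module.finrank ℚ K with hK1
  have hK10 : 0 ≤ K1 := by
    have : 0 < C4 := by linarith
    positivity
  have e2 : 1 ≤ K1 * (N * W) := by
    calc (1 : ℝ) ≤ K1 * W := hQ
      _ = 1 * (K1 * W) := (one_mul _).symm
      _ ≤ N * (K1 * W) := mul_le_mul_of_nonneg_right hN (mul_nonneg hK10 hW)
      _ = K1 * (N * W) := by ring
  calc 1 + N * ∏ φ : K →+* ℂ, Dt s s β φ ^ (-(3 / 4) : ℝ) ≤ K1 * (N * W) + N * W := add_le_add e2 e1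
    _ = (K1 + 1) * (N * W) := by ring

section main

variable {k M : Type} [Field k] [NumberField k] [Field M] [NumberField M] [Algebra k M]

private theorem bk_tb {τ : M ≃ₐ[k] M} {β : Blk (𝓞 M)} (h : β.Cj τ) : bk τ (tb β) = β := by
  obtain ⟨h1, h2, h3⟩ := h
  ext1
  · rfl
  · rfl
  · rfl
  · exact h1.symm
  · exact h2.symm
  · exact h3.symm

private theorem cj_tb {τ : M ≃ₐ[k] M} {β : Blk (𝓞 M)} (h : β.Cj τ) : cj τ (tb β) = tc β := by
  obtain ⟨h1, h2, h3⟩ := h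
  unfold cj tc tb
  rw [h1, h2, h3]

variable (k M)

theorem cnt_of (h : Com3Stmt k M) : Cnt3Stmt k M := by
  intro τ ω hτ m0 hm0
  obtain ⟨m, hm, hm6, hcom⟩ := h τ ω hτ m0 hm0
  refine ⟨m, hm, hm6, fun C hC A => ?_⟩
  obtain ⟨C0, hC0, hco⟩ := hcom C hC
  set d := Module.finrank ℚ M with hd
  have hCp : 0 < C := by linarith
  set C4 : ℝ := 2 * C ^ 4 with hC4d
  have hC4 : 1 ≤ C4 := by
    have := one_le_pow₀ (n := 4) hC
    linarith
  set K1 : ℝ := (C4 ^ (3 / 4 : ℝ)) ^ d + 1 with hK1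
  have hC40 : 0 < C4 := by linarith
  have hK10 : 0 < K1 := by positivity
  have hl2 : 0 < Real.log 2 := Real.log_pos (by norm_num)
  have hlC : 0 ≤ Real.log C := Real.log_nonneg hC
  set C5 : ℝ := (1 + (A + 1) * Real.log C) / Real.log 2 + (A + 1) with hC5
  have hC50 : 0 < C5 := by positivity
  set K2 : ℝ := 2 * (20 * (1 * C4) ^ (1 / 20 : ℝ)) * (40 * C ^ (1 / 40 : ℝ)) with hK2
  have hK20 : 0 < K2 := by positivity
  refine ⟨C0 * K1 * (C5 ^ d + K2 ^ d), by positivity, fun s ρ1 ρ2 hRg hRho β hMain hAll => ?_⟩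
  obtain ⟨hSz, hCj, hnz, hD1, hE⟩ := hMain
  have hbk := bk_tb hCj
  have hcj := cj_tb hCj
  have hs : 0 < s := by
    by_contra hneg
    push Not at hneg
    have := mul_nonpos_of_nonneg_of_nonpos hCp.le hneg
    linarith
  have hB : 1 ≤ C * (1 + s) := by nlinarith
  have hBs : s ≤ C * (1 + s) := by nlinarith
  set H : ℝ := Hp C (A + 1) s with hH
  have hHB : C * (1 + s) ≤ H := by
    rw [hH]
    unfold Hp
    exact le_self_pow₀ hB (Nat.succ_ne_zero A)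
  have hHA : Hp C A s ≤ H := by
    rw [hH]
    unfold Hp
    exact pow_le_pow_right₀ hB (Nat.le_succ A)
  have hbd : ∀ x : 𝓞 M, Bd (Hp C A s) x → Bd H x := fun x hx φ => (hx φ).trans hHA
  have hAll' : (bk τ (tb β)).All (Bd H) := by
    rw [hbk]
    obtain ⟨a1, a2, a3, a4, a5, a6⟩ := hAll
    exact ⟨hbd _ a1, hbd _ a2, hbd _ a3, hbd _ a4, hbd _ a5, hbd _ a6⟩
  have hRep : ∀ u : 𝓞 M, Rep2 τ (Hp C A s) β u → Rep2 τ H (bk τ (tb β)) u := by
    rintro u ⟨π, r, r', hπ, ⟨a1, a2, a3, a4⟩, hsol⟩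
    rw [hbk]
    exact ⟨π, r, r', hπ, ⟨hbd _ a1, hbd _ a2, hbd _ a3, hbd _ a4⟩, hsol⟩
  have hE2 : E2 τ (tb β) = β.E := by
    unfold E2
    rw [hcj]
    rfl
  obtain ⟨g, hg, hcop, hgm, hmain⟩ := hco s H hs (hBs.trans hHB) (hB.trans hHB) (tb β) hD1
    (by rw [hE2]; exact hE) hAll'
  have hg0 : g ≠ ⊥ := by
    have := hg.ne_zero
    rwa [Ne, Ideal.zero_eq_bot] at this
  refine ⟨g, hg0, hg, hcop, hgm, fun S hS => ?_⟩
  have hS' : ∀ u ∈ S, Adm m0 C s s u (tO τ u) ∧ Rep2 τ H (bk τ (tb β)) u := fun u hu =>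
    ⟨(hS u hu).1, hRep _ (hS u hu).2⟩
  have hBxb : Bx C s ρ1 ρ2 (tb β) := ⟨hSz.sb1, hSz.sb2, hSz.sb3⟩
  have hx : ∀ φ : M →+* ℂ, sz φ β.D1 / s ^ 2 ≤ C4 := fun φ => dt_bd hC hBxb hRho hs φ
  have hx0 : ∀ φ : M →+* ℂ, 0 < sz φ β.D1 / s ^ 2 := fun φ => div_pos (sz_pos φ hD1) (by positivity)
  have hN : 1 ≤ ni g := one_le_ni hg0
  have hbase := base_le hs hD1 hC4 hx hN
  have hW1 := wt_nonneg (3 / 4) s (tb β)
  have hF1 : (0 : ℝ) ≤ F2 τ m g (tb β) := Nat.cast_nonneg _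
  have hgn := ni_nonneg g
  -- the common form
  have hgen : ∀ Λ : (M →+* ℂ) → ℝ, (∀ φ, 1 ≤ Λ φ ∧ (1 + Real.log H ≤ Λ φ ∨ Nd s s (Λ φ) β φ)) →
      (S.card : ℝ) ≤ C0 * F2 τ m g (tb β) * (∏ φ, Λ φ) * (K1 * (ni g * Wt (3 / 4) s (tb β))) := by
    intro Λ hΛ
    have hΛ0 : 0 ≤ ∏ φ, Λ φ := Finset.prod_nonneg fun φ _ => zero_le_one.trans (hΛ φ).1
    have h1 := hmain Λ (by rw [hbk]; exact hΛ) S hS'
    rw [hbk] at h1
    refine h1.trans ?_
    exact mul_le_mul_of_nonneg_left hbase (by positivity)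
  have hL : Real.log 2 ≤ Real.log (2 + s) := Real.log_le_log (by norm_num) (by linarith)
  have hL0 : 0 < Real.log (2 + s) := by linarith
  have hd5 : 0 ≤ C5 ^ d := by positivity
  have hd2 : 0 ≤ K2 ^ d := by positivity
  have hXX : 0 ≤ ni g * Wt (3 / 4) s (tb β) := by positivity
  refine ⟨?_, fun μ hμ hμ1 hbig => ?_⟩
  · -- first bound
    have hlogH : 1 + Real.log H ≤ C5 * Real.log (2 + s) := by
      have e1 : Real.log H = (A + 1) * Real.log (C * (1 + s)) := by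
        rw [hH]
        unfold Hp
        rw [Real.log_pow]
        push_cast
        ring
      have e2 : Real.log (C * (1 + s)) = Real.log C + Real.log (1 + s) := Real.log_mul (by linarith) (by linarith)
      have e3 : Real.log (1 + s) ≤ Real.log (2 + s) := Real.log_le_log (by linarith) (by linarith)
      have e4 : 1 + (A + 1) * Real.log C ≤ (1 + (A + 1) * Real.log C) / Real.log 2 * Real.log (2 + s) := by
        rw [div_mul_eq_mul_div, le_div_iff₀ hl2]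
        exact mul_le_mul_of_nonneg_left hL (by positivity)
      rw [e1, e2, hC5, add_mul]
      have e5 : ((A : ℝ) + 1) * Real.log (1 + s) ≤ (A + 1) * Real.log (2 + s) :=
        mul_le_mul_of_nonneg_left e3 (by positivity)
      linarith
    have hlogH0 : 0 ≤ Real.log H := Real.log_nonneg (hB.trans hHB)
    have h1 := hgen (fun _ => 1 + Real.log H) fun φ => ⟨by linarith, Or.inl le_rfl⟩
    rw [prod_c (K := M)] at h1
    have h2 : (1 + Real.log H) ^ d ≤ (C5 ^ d + K2 ^ d) * Real.log (2 + s) ^ d := by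
      refine (pow_le_pow_left₀ (by linarith) hlogH d).trans ?_
      rw [mul_pow, add_mul]
      have : 0 ≤ K2 ^ d * Real.log (2 + s) ^ d := by positivity
      linarith
    refine h1.trans ?_
    calc C0 * F2 τ m g (tb β) * (1 + Real.log H) ^ d * (K1 * (ni g * Wt (3 / 4) s (tb β)))
        ≤ C0 * F2 τ m g (tb β) * ((C5 ^ d + K2 ^ d) * Real.log (2 + s) ^ d) *
        (K1 * (ni g * Wt (3 / 4) s (tb β))) := by gcongr
      _ = _ := by ring
  · -- second bound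
    have hρ1 : 0 < ρ1 := hRho.1
    have hρ2 : 0 ≤ ρ2 := hρ1.le.trans hRho.2.1
    set Λ : (M →+* ℂ) → ℝ := fun φ => 1 + 2 * Real.log (1 / μ) +
      Real.log (max 1 (1 / (sz φ β.D1 / s ^ 2))) + Real.log (C * (2 + ρ2) ^ 2) with hΛd
    have ha : 0 ≤ Real.log (1 / μ) := Real.log_nonneg ((one_le_div hμ).2 hμ1)
    have h2ρ : 1 ≤ (2 + ρ2) ^ 2 := one_le_pow₀ (by linarith)
    have hd1 : 1 ≤ C * (2 + ρ2) ^ 2 := by nlinarith
    have hdd : 0 ≤ Real.log (C * (2 + ρ2) ^ 2) := Real.log_nonneg hd1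
    have hc : ∀ φ : M →+* ℂ, 0 ≤ Real.log (max 1 (1 / (sz φ β.D1 / s ^ 2))) := fun φ => Real.log_nonneg (le_max_left _ _)
    have hΛ : ∀ φ, 1 ≤ Λ φ ∧ (1 + Real.log H ≤ Λ φ ∨ Nd s s (Λ φ) β φ) := by
      intro φ
      have hcφ := hc φ
      have hΛφ : Λ φ = 1 + 2 * Real.log (1 / μ) +
        Real.log (max 1 (1 / (sz φ β.D1 / s ^ 2))) + Real.log (C * (2 + ρ2) ^ 2) := rfl
      refine ⟨by rw [hΛφ]; linarith, Or.inr ?_⟩
      have e1 : C * (2 + ρ2) ^ 2 ≤ Real.exp (Λ φ) := by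
        rw [← Real.exp_log (lt_of_lt_of_le one_pos hd1)]
        exact Real.exp_le_exp.2 (by rw [hΛφ]; linarith)
      have e2 : C * ρ2 ^ 2 ≤ Real.exp (Λ φ) := by
        refine le_trans (mul_le_mul_of_nonneg_left ?_ hCp.le) e1
        nlinarith
      have e3 : C * (ρ1 * ρ2) ≤ Real.exp (Λ φ) := by
        refine le_trans (mul_le_mul_of_nonneg_left ?_ hCp.le) e2
        rw [pow_two]
        exact mul_le_mul_of_nonneg_right hRho.2.1 hρ2
      have e4 : C * ρ1 ^ 2 ≤ Real.exp (Λ φ) := by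
        refine le_trans (mul_le_mul_of_nonneg_left ?_ hCp.le) e3
        rw [pow_two]
        exact mul_le_mul_of_nonneg_left hRho.2.1 hρ1.le
      have e5 : Real.exp (-(Λ φ)) ≤ sz φ β.D1 / s ^ 2 := by
        have q1 : 1 / (sz φ β.D1 / s ^ 2) ≤ Real.exp (Λ φ) := by
          refine (le_max_right 1 _).trans ?_
          rw [← Real.exp_log (lt_of_lt_of_le one_pos (le_max_left 1 (1 / (sz φ β.D1 / s ^ 2))))]
          exact Real.exp_le_exp.2 (by rw [hΛφ]; linarith)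
        rw [Real.exp_neg, inv_eq_one_div]
        exact (one_div_le (hx0 φ) (Real.exp_pos _)).1 q1
      have e6 : Real.exp (-(Λ φ)) ≤ μ ^ 2 := by
        have q1 : (1 / μ) ^ 2 ≤ Real.exp (Λ φ) := by
          calc (1 / μ) ^ 2 = Real.exp (2 * Real.log (1 / μ)) := by
                rw [show (2 : ℝ) * Real.log (1 / μ) = ((2 : ℕ) : ℝ) * Real.log (1 / μ) by norm_num,
                  Real.exp_nat_mul, Real.exp_log (by positivity)]
            _ ≤ Real.exp (Λ φ) := Real.exp_le_exp.2 (by rw [hΛφ]; linarith)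
        have q2 : (1 / μ) ^ 2 = 1 / μ ^ 2 := by rw [div_pow, one_pow]
        rw [q2] at q1
        rw [Real.exp_neg, inv_eq_one_div]
        exact (one_div_le (by positivity) (Real.exp_pos _)).1 q1
      have e7 : Real.exp (-(Λ φ)) * (s * s) ^ 2 ≤ μ ^ 2 * s ^ 4 := by
        calc Real.exp (-(Λ φ)) * (s * s) ^ 2 ≤ μ ^ 2 * (s * s) ^ 2 :=
              mul_le_mul_of_nonneg_right e6 (by positivity)
          _ = _ := by ring
      have hb1 : sz φ (E2 τ (tb β)) = sz φ β.E := by rw [hE2]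
      have hb2 : sz φ (dl2 τ (tb β)) = sz φ (β.D2 ^ 2 - 4 * (β.D1 * β.D3)) := by
        unfold dl2
        rw [hcj]
        rfl
      refine ⟨⟨(hSz.sb1 φ).trans ?_, (hSz.sb2 φ).trans ?_, (hSz.sb3 φ).trans ?_⟩,
        ⟨(hSz.sc1 φ).trans ?_, (hSz.sc2 φ).trans ?_, (hSz.sc3 φ).trans ?_⟩, ?_,
        e7.trans ((hbig φ).1.trans (le_of_eq hb1)), e7.trans ((hbig φ).2.trans (le_of_eq hb2))⟩
      · calc C * s * ρ1 ^ 2 = C * ρ1 ^ 2 * s := by ring
          _ ≤ _ := mul_le_mul_of_nonneg_right e4 hs.le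
      · calc C * s * (ρ1 * ρ2) = C * (ρ1 * ρ2) * s := by ring
          _ ≤ _ := mul_le_mul_of_nonneg_right e3 hs.le
      · calc C * s * ρ2 ^ 2 = C * ρ2 ^ 2 * s := by ring
          _ ≤ _ := mul_le_mul_of_nonneg_right e2 hs.le
      · calc C * s * ρ1 ^ 2 = C * ρ1 ^ 2 * s := by ring
          _ ≤ _ := mul_le_mul_of_nonneg_right e4 hs.le
      · calc C * s * (ρ1 * ρ2) = C * (ρ1 * ρ2) * s := by ring
          _ ≤ _ := mul_le_mul_of_nonneg_right e3 hs.le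
      · calc C * s * ρ2 ^ 2 = C * ρ2 ^ 2 * s := by ring
          _ ≤ _ := mul_le_mul_of_nonneg_right e2 hs.le
      · have h1 := mul_le_mul_of_nonneg_right e5 (by positivity : (0 : ℝ) ≤ s ^ 2)
        rwa [div_mul_cancel₀ _ (by positivity)] at h1
    have h1 := hgen Λ hΛ
    have h2 : ∏ φ, Λ φ ≤ K2 ^ d * ((1 + Real.log (1 / μ)) ^ d * (2 + ρ2) ^ ((d : ℝ) / 20) *
        Wt (1 / 20) s (tb β)) := by
      have h3 : ∏ φ, Λ φ ≤ ∏ φ : M →+* ℂ, (K2 * ((1 + Real.log (1 / μ)) * (2 + ρ2) ^ (1 / 20 : ℝ) *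
          (sz φ β.D1 / s ^ 2) ^ (-(1 / 20) : ℝ))) := by
        refine Finset.prod_le_prod (fun φ _ => zero_le_one.trans (hΛ φ).1) fun φ _ => ?_
        exact lam_le hC4 hC (hx0 φ) (hx φ) hμ hμ1 hρ2
      rw [prod_split] at h3
      have e1 : ((2 + ρ2) ^ (1 / 20 : ℝ)) ^ d = (2 + ρ2) ^ ((d : ℝ) / 20) := by
        rw [← Real.rpow_natCast, ← Real.rpow_mul (by linarith)]
        congr 1
        ring
      rw [e1] at h3
      exact h3
    have hWm := wt_mul hs (b := tb β) hD1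
    have hlog0 : 0 ≤ 1 + Real.log (1 / μ) := by linarith
    have hW20 := wt_nonneg (1 / 20) s (tb β)
    refine h1.trans ?_
    calc C0 * F2 τ m g (tb β) * (∏ φ, Λ φ) * (K1 * (ni g * Wt (3 / 4) s (tb β)))
        ≤ C0 * F2 τ m g (tb β) * (K2 ^ d * ((1 + Real.log (1 / μ)) ^ d * (2 + ρ2) ^ ((d : ℝ) / 20) *
          Wt (1 / 20) s (tb β))) * (K1 * (ni g * Wt (3 / 4) s (tb β))) := by gcongr
      _ = C0 * K1 * K2 ^ d * F2 τ m g (tb β) * (1 + Real.log (1 / μ)) ^ d *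
          (2 + ρ2) ^ ((d : ℝ) / 20) * (ni g * (Wt (3 / 4) s (tb β) * Wt (1 / 20) s (tb β))) := by ring
      _ = C0 * K1 * K2 ^ d * F2 τ m g (tb β) * (1 + Real.log (1 / μ)) ^ d *
          (2 + ρ2) ^ ((d : ℝ) / 20) * (ni g * Wt (4 / 5) s (tb β)) := by rw [hWm]
      _ ≤ _ := by
          have hW45 := wt_nonneg (4 / 5) s (tb β)
          have h9 : K2 ^ d ≤ C5 ^ d + K2 ^ d := by linarith
          gcongr

end main

end H32.AW
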