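import Pool.Agent.H51.CM.Com
import Pool.Agent.H77.CO.Fin2
import Pool.Agent.H88.AQ.Iface

/-!
# H32 AW COM: `Com3Stmt` from `Loc3Stmt` (W2#, AQ, MP_b39724; merge of H51/CM/Com and H77/CO/Fin2)

`grp2` with `gb = g`, `gc = cI τ g` (the same norm), the embeddings by `embL`, the number of dyadic boxes by `exLL`.
-/

open scoped NumberField

set_option autoImplicit false

noncomputable section

namespace H32.AW

open H88.A4 H77.CO H51.CM H88.AQ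

variable {k M : Type} [Field k] [NumberField k] [Field M] [NumberField M] [Algebra k M]

private theorem ci_norm {τ : M ≃ₐ[k] M} (hτ : Invo k M τ) (I : Ideal (𝓞 M)) :
    Ideal.absNorm (cI τ I) = Ideal.absNorm I := by
  have e : cI τ I = I.comap (tE hτ) := rfl
  rw [e, Ideal.absNorm_apply, Ideal.absNorm_apply]
  unfold Submodule.cardQuot
  refine Nat.card_congr ?_
  refine (Ideal.quotientEquiv (I.comap (tE hτ)) I (tE hτ) ?_).toEquiv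
  exact (Ideal.map_comap_of_surjective _ (tE hτ).surjective I).symm

private theorem ci_ne {τ : M ≃ₐ[k] M} (hτ : Invo k M τ) {I : Ideal (𝓞 M)} (hI : I ≠ ⊥) :
    cI τ I ≠ ⊥ := by
  intro h
  have h1 := ci_norm hτ I
  rw [h, Ideal.absNorm_bot] at h1
  exact hI (Ideal.absNorm_eq_zero_iff.1 h1.symm)

/-- the completions lemma for given classes -/
theorem com3 (k M : Type) [Field k] [NumberField k] [Field M] [NumberField M] [Algebra k M]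
    (τ : M ≃ₐ[k] M) (hτ : Invo k M τ) (m : ℕ) (hm : m ≠ 0) (C : ℝ) (hC : 1 ≤ C)
    (m2 : ℕ) (hm2 : m2 ≠ 0) : ∃ C' : ℝ, 0 < C' ∧ ∀ s H : ℝ, 0 < s → 1 ≤ H →
    ∀ β : Blk (𝓞 M), β.Cj τ → β.E ≠ 0 → β.D1 ≠ 0 → β.All (Bd H) →
    ∀ g : Ideal (𝓞 M), g ≠ ⊥ → ∀ (F : ℕ) (cl : Row (𝓞 M) → ℕ), (∀ π, cl π < F) →
      (∀ (u u' r r' ρ ρ' : 𝓞 M) (π π' : Row (𝓞 M)), π.Cj τ → π'.Cj τ →
            Adm m C s s u (tO τ u) → Sol β π r r' u (tO τ u) →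
            Adm m C s s u' (tO τ u') → Sol β π' ρ ρ' u' (tO τ u') →
            cl π = cl π' → ∀ x ∈ g * cI τ g, β.E ∣ (m2 : 𝓞 M) * x * β.br π π') →
      ∀ Λ : (M →+* ℂ) → ℝ, (∀ φ, 1 ≤ Λ φ ∧ (1 + Real.log H ≤ Λ φ ∨ H88.WS.Nd s s (Λ φ) β φ)) →
      ∀ S : Finset (𝓞 M), (∀ u ∈ S, Adm m C s s u (tO τ u) ∧ Rep2 τ H β u) →
        (S.card : ℝ) ≤ C' * F * (∏ φ, Λ φ) *
          (1 + Ideal.absNorm g * ∏ φ : M →+* ℂ, Dt s s β φ ^ (-(3 / 4) : ℝ)) := by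
  classical
  obtain ⟨C3, hC3, hgrp⟩ := grp2 k M τ hτ m hm C hC m2 hm2
  set n := Fintype.card (M →+* ℂ) with hn
  obtain ⟨C4, hC4, hLL⟩ := exLL (3264 * C * 80 ^ n)
    (by
      have : (1 : ℝ) ≤ 80 ^ n := one_le_pow₀ (by norm_num)
      nlinarith) (8 * n + 12)
  refine ⟨C3 * C4 ^ n, by positivity, ?_⟩
  intro s H hs hH β hβc hE hD hβ g hg F cl hcl hmain Λ hΛ S hS
  have hΛ0 : ∀ φ, 0 ≤ Λ φ := fun φ => by have := (hΛ φ).1; linarith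
  have hΛp : 0 ≤ ∏ φ, Λ φ := Finset.prod_nonneg fun φ _ => hΛ0 φ
  set P : ℝ := ∏ φ : M →+* ℂ, Dt s s β φ ^ (-(3 / 4) : ℝ) with hP
  have hP0 : 0 ≤ P := Finset.prod_nonneg fun φ _ => Real.rpow_nonneg (Dt_pos hs hD φ).le _
  set V : ℝ := Ideal.absNorm g * P with hV
  have hV0 : 0 ≤ V := mul_nonneg (Nat.cast_nonneg _) hP0
  have hVs : Real.sqrt (Ideal.absNorm g * Ideal.absNorm (cI τ g)) * P = V := by
    rw [ci_norm hτ, Real.sqrt_mul_self (Nat.cast_nonneg _)]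
  rcases S.eq_empty_or_nonempty with rfl | ⟨x0, hx0⟩
  · rw [Finset.card_empty, Nat.cast_zero]
    positivity
  obtain ⟨hCs, -⟩ := s_low (hS x0 hx0).1
  -- solutions
  have hex : ∀ x : 𝓞 M, ∃ (π : Row (𝓞 M)) (r r' : 𝓞 M), x ∈ S →
      π.Cj τ ∧ π.All (Bd H) ∧ Sol β π r r' x (tO τ x) := by
    intro x
    by_cases hx : x ∈ S
    · obtain ⟨π, r, r', h6, h7, h8⟩ := (hS x hx).2
      exact ⟨π, r, r', fun _ => ⟨h6, h7, h8⟩⟩
    · exact ⟨⟨0, 0, 0, 0⟩, 0, 0, fun h => absurd h hx⟩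
  choose π ρ ρ' hπ using hex
  -- linear forms
  have hem : ∀ φ : M →+* ℂ, ∃ z : ℂ × ℂ × ℂ × ℂ,
      Dt s s β φ ^ 3 ≤ 16 * ‖φ (β.D1 : M)‖ ^ 2 * ‖z.1 * z.2.2.2 - z.2.1 * z.2.2.1‖ ^ 2 ∧
      ∀ x ∈ S,
        ‖z.1 * φ (β.eb1 (π x) : M) + z.2.1 * φ (β.eb2 (π x) : M)‖ *
            ‖z.2.2.1 * φ (β.eb1 (π x) : M) + z.2.2.2 * φ (β.eb2 (π x) : M)‖ ≤
              Real.sqrt (2 * C * ‖φ (β.E : M)‖) ^ 2 ∧
          ‖z.1 * φ (β.eb1 (π x) : M) + z.2.1 * φ (β.eb2 (π x) : M)‖ ≤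
            3264 * C * 80 ^ n * Real.exp ((8 * n + 12 : ℕ) * Λ φ) *
              Real.sqrt (2 * C * ‖φ (β.E : M)‖) ∧
          ‖z.2.2.1 * φ (β.eb1 (π x) : M) + z.2.2.2 * φ (β.eb2 (π x) : M)‖ ≤
            3264 * C * 80 ^ n * Real.exp ((8 * n + 12 : ℕ) * Λ φ) *
              Real.sqrt (2 * C * ‖φ (β.E : M)‖) := by
    intro φ
    obtain ⟨a1, b1, a2, b2, h6, h7⟩ := embL (M := m) φ hC hs hs hH hCs hCs hE hD hβ (hΛ φ).1 (hΛ φ).2
    exact ⟨(a1, b1, a2, b2), h6, fun x hx => h7 (π x) (ρ x) (ρ' x) x (tO τ x) (hπ x hx).2.1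
      (hπ x hx).2.2 (hS x hx).1⟩
  choose z hz1 hz2 using hem
  choose L hL1 hL2 using fun φ : M →+* ℂ => hLL (Λ φ) (hΛ φ).1
  have hw : ∀ φ : M →+* ℂ, 0 < Real.sqrt (2 * C * ‖φ (β.E : M)‖) := by
    intro φ
    apply Real.sqrt_pos.2
    have : 0 < ‖φ (β.E : M)‖ := by
      rw [norm_pos_iff, map_ne_zero]
      exact fun h0 => hE (NumberField.RingOfIntegers.coe_injective h0)
    positivity
  -- boxes
  have hbx : ∀ (φ : M →+* ℂ) (x : 𝓞 M), ∃ i : Bool × ℕ, i.2 ≤ L φ ∧ (x ∈ S →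
      ‖(z φ).1 * φ (β.eb1 (π x) : M) + (z φ).2.1 * φ (β.eb2 (π x) : M)‖ ≤
          bA (Real.sqrt (2 * C * ‖φ (β.E : M)‖)) i ∧
        ‖(z φ).2.2.1 * φ (β.eb1 (π x) : M) + (z φ).2.2.2 * φ (β.eb2 (π x) : M)‖ ≤
          bB (Real.sqrt (2 * C * ‖φ (β.E : M)‖)) i) := by
    intro φ x
    by_cases hx : x ∈ S
    · obtain ⟨h6, h7, h8⟩ := hz2 φ x hx
      have hw' := hw φ
      have h9 : ∀ y : ℝ, y ≤ 3264 * C * 80 ^ n * Real.exp ((8 * n + 12 : ℕ) * Λ φ) *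
          Real.sqrt (2 * C * ‖φ (β.E : M)‖) → y ≤ 2 ^ L φ * Real.sqrt (2 * C * ‖φ (β.E : M)‖) :=
        fun y hy => hy.trans (mul_le_mul_of_nonneg_right (hL1 φ) hw'.le)
      obtain ⟨i, hi1, hi2, hi3⟩ := dya hw' (norm_nonneg _) (norm_nonneg _) h6 (h9 _ h7) (h9 _ h8)
      exact ⟨i, hi1, fun _ => ⟨hi2, hi3⟩⟩
    · exact ⟨(false, 0), Nat.zero_le _, fun h => absurd h hx⟩
  choose i hi1 hi2 using hbx
  -- grouping
  set f : 𝓞 M → ℕ × ((M →+* ℂ) → Bool × ℕ) := fun x => (cl (π x), fun φ => i φ x) with hf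
  set T : Finset (ℕ × ((M →+* ℂ) → Bool × ℕ)) := Finset.range F ×ˢ
    Fintype.piFinset fun φ => (Finset.univ : Finset Bool) ×ˢ Finset.range (L φ + 1) with hT
  have himg : S.image f ⊆ T := by
    intro g hg
    obtain ⟨x, -, rfl⟩ := Finset.mem_image.1 hg
    rw [hT, Finset.mem_product]
    refine ⟨?_, ?_⟩
    · rw [Finset.mem_range]
      exact hcl (π x)
    · rw [Fintype.mem_piFinset]
      intro φ
      rw [Finset.mem_product, Finset.mem_range, Nat.lt_succ_iff]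
      exact ⟨Finset.mem_univ _, hi1 φ x⟩
  have hTc : (T.card : ℝ) ≤ F * (C4 ^ n * ∏ φ, Λ φ) := by
    rw [hT, Finset.card_product, Finset.card_range, Fintype.card_piFinset]
    simp only [Finset.card_product, Finset.card_univ, Fintype.card_bool, Finset.card_range]
    push_cast
    refine mul_le_mul_of_nonneg_left ?_ (Nat.cast_nonneg _)
    calc ∏ φ : M →+* ℂ, 2 * ((L φ : ℝ) + 1) ≤ ∏ φ : M →+* ℂ, C4 * Λ φ :=
          Finset.prod_le_prod (fun φ _ => by positivity) fun φ _ => hL2 φ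
      _ = C4 ^ n * ∏ φ, Λ φ := by
          rw [Finset.prod_mul_distrib, Finset.prod_const, Finset.card_univ]
  have hfib : ∀ q ∈ S.image f, (S.filter fun x => f x = q).card ≤ ⌊C3 * (1 + V)⌋₊ := by
    intro q hq
    apply Nat.le_floor
    set S0 := S.filter fun x => f x = q with hS0
    have hsub : ∀ x ∈ S0, x ∈ S ∧ cl (π x) = q.1 ∧ ∀ φ, i φ x = q.2 φ := by
      intro x hx
      obtain ⟨hx1, hx2⟩ := Finset.mem_filter.1 hx
      refine ⟨hx1, congrArg Prod.fst hx2, fun φ => ?_⟩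
      exact congrFun (congrArg Prod.snd hx2) φ
    rw [← hVs]
    refine hgrp s hs β hβc hE hD g (cI τ g) hg (ci_ne hτ hg) (fun φ => (z φ).1) (fun φ => (z φ).2.1)
      (fun φ => (z φ).2.2.1) (fun φ => (z φ).2.2.2)
      (fun φ => bA (Real.sqrt (2 * C * ‖φ (β.E : M)‖)) (q.2 φ))
      (fun φ => bB (Real.sqrt (2 * C * ‖φ (β.E : M)‖)) (q.2 φ)) ?_ hz1 S0 π ρ ρ' ?_ ?_ ?_
    · intro φ
      obtain ⟨e1, e2, e3⟩ := bAB (hw φ) (q.2 φ)
      refine ⟨e1, e2, ?_⟩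
      rw [e3, Real.sq_sqrt (by positivity)]
      linarith
    · intro x hx
      obtain ⟨e1, -, -⟩ := hsub x hx
      exact ⟨(hS x e1).1, (hπ x e1).1, (hπ x e1).2.2⟩
    · intro x hx φ
      obtain ⟨e1, -, e3⟩ := hsub x hx
      have e4 := hi2 φ x e1
      rw [e3 φ] at e4
      exact e4
    · intro x hx y hy w hw'
      obtain ⟨e1, e2, -⟩ := hsub x hx
      obtain ⟨e4, e5, -⟩ := hsub y hy
      exact hmain x y (ρ x) (ρ' x) (ρ y) (ρ' y) (π x) (π y) (hπ x e1).1 (hπ y e4).1 (hS x e1).1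
        (hπ x e1).2.2 (hS y e4).1 (hπ y e4).2.2 (e2.trans e5.symm) w hw'
  have h6 := Finset.card_le_mul_card_image S _ hfib
  have h7 : (S.card : ℝ) ≤ (⌊C3 * (1 + V)⌋₊ : ℝ) * (T.card : ℝ) := by
    have := h6.trans (Nat.mul_le_mul_left _ (Finset.card_le_card himg))
    exact_mod_cast this
  calc (S.card : ℝ) ≤ (⌊C3 * (1 + V)⌋₊ : ℝ) * (T.card : ℝ) := h7
    _ ≤ (C3 * (1 + V)) * (F * (C4 ^ n * ∏ φ, Λ φ)) := by
      gcongr
      exact Nat.floor_le (by positivity)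
    _ = C3 * C4 ^ n * F * (∏ φ, Λ φ) * (1 + V) := by ring

/-- **COM** from **LOC** -/
theorem com_of (k M : Type) [Field k] [NumberField k] [Field M] [NumberField M] [Algebra k M]
    (hL : Loc3Stmt k M) : Com3Stmt k M := by
  intro τ ω hτ m0 hm0
  obtain ⟨m, m2, hm, hm2, h6, hloc⟩ := hL τ ω hτ m0 hm0
  refine ⟨m, hm, h6, fun C hC => ?_⟩
  obtain ⟨C', hC', hcom⟩ := com3 k M τ hτ.1 m0 hm0 C hC m2 hm2
  refine ⟨C', hC', ?_⟩
  intro s H hs _ hH b hb hE hall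
  obtain ⟨g, h1, h2, h3, cl, hcl, hmain⟩ := hloc b hb hE
  refine ⟨g, h1, h2, h3, ?_⟩
  intro Λ hΛ S hS
  exact hcom s H hs hH (bk τ b) ⟨rfl, rfl, rfl⟩ hE hb hall g h1.ne_zero _ cl hcl
    (fun u u' r r' ρ ρ' π π' => hmain C s u u' r r' ρ ρ' π π') Λ hΛ S hS

end H32.AW
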